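import Pool.Agent.H379R3.CDQ.Stmts

set_option autoImplicit false

namespace Pool.Agent.H123R3.CDQ

open Pool.Agent.H379R3.CDQ

/-- Odd modules over pro-2 groups are acyclic. -/
theorem taskOdd : TaskOdd := by
  intro hPer hAvg G _ _ _ _ M _ _ _ hdisc hpro hodd n hn
  refine hAvg hPer G M hdisc ?_ n hn
  intro U hU
  obtain ⟨m, hm⟩ := hpro U hU
  have hcop : Nat.Coprime (Nat.card M) U.index := by
    rw [hm]
    exact Nat.Coprime.pow_right m (Nat.coprime_two_right.mpr hodd)
  have hne : U.index ≠ 0 := by rw [hm]; positivity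
  let φ : M ≃+ M :=
    AddEquiv.ofBijective (nsmulAddMonoidHom U.index : M →+ M) (nsmulCoprime hcop).bijective
  have hφ : ∀ x : M, φ x = U.index • x := fun x => rfl
  refine ⟨fun _ => φ.symm.toAddMonoidHom, fun _ _ _ => rfl, fun g s x => ?_, fun x => ?_⟩
  · show φ.symm (g • x) = g • φ.symm x
    apply φ.injective
    rw [φ.apply_symm_apply, hφ, smul_comm, ← hφ, φ.apply_symm_apply]
  · show ∑ᶠ s : G ⧸ U, φ.symm x = x
    have : Finite (G ⧸ U) := Nat.finite_of_card_ne_zero hne
    have : Fintype (G ⧸ U) := Fintype.ofFinite _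
    rw [finsum_eq_sum_of_fintype, Finset.sum_const, Finset.card_univ, ← Nat.card_eq_fintype_card]
    have h := φ.apply_symm_apply x
    rw [hφ] at h
    exact h

end Pool.Agent.H123R3.CDQ
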